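import Pool.Agent.H87R3.DRMain

set_option autoImplicit false

/-! Approximation with multipliers whose base-`b` digits are `0` or `1`: for every base `b ≥ 2` and every
real `γ`, `m_b(γ, N) ≤ C exp(-c log N / (log log N)²)`. -/

namespace Pool.Agent.Results.MP_fcf9e8_nt.QuasiPowerSaving

open Finset Pool.Agent.H87R3.DR

/-- The positive integers whose base-`b` expansion uses only the digits `0` and `1`: the sums of
nonempty finite sets of (distinct) powers of `b`. -/
def restricted (b : ℕ) : Set ℕ := {n | ∃ I : Finset ℕ, I.Nonempty ∧ n = ∑ i ∈ I, b ^ i}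

theorem natlog_le_two (m : ℕ) (hm : 1 ≤ m) : (Nat.log 2 m : ℝ) ≤ 2 * Real.log m := by
  have h1 := natlog_le m hm
  have hl2 : (1 : ℝ) / 2 < Real.log 2 := by have := Real.log_two_gt_d9; linarith
  have h0 : 0 ≤ Real.log m := Real.log_natCast_nonneg m
  calc (Nat.log 2 m : ℝ) ≤ Real.log m / Real.log 2 := h1
    _ ≤ Real.log m / (1 / 2) := div_le_div_of_nonneg_left h0 (by norm_num) hl2.le
    _ = 2 * Real.log m := by ring

theorem k0_le (b L m : ℕ) : k0 b L m ≤ (L + b) * m * (Nat.log 2 m + 1) := by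
  unfold k0
  have : m * b ≤ m * b * (Nat.log 2 m + 1) := Nat.le_mul_of_pos_right _ (by omega)
  calc L * (Nat.log 2 m + 1) * m + m * b ≤ L * (Nat.log 2 m + 1) * m + m * b * (Nat.log 2 m + 1) := by
        omega
    _ = (L + b) * m * (Nat.log 2 m + 1) := by ring

theorem kk_le (b L T : ℕ) (hT : 1 ≤ T) :
    kk b L T ≤ (L * ((4 * L + 4 * b + 1) * (4 * L + 4 * b + 3))) * T * (Nat.log 2 T + 1) ^ 2 := by
  set l := Nat.log 2 T + 1 with hl
  have hl1 : 1 ≤ l := by omega
  set D := 4 * L + 4 * b + 1 with hD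
  have hlog : Nat.log 2 (2 * T) = l := by
    rw [mul_comm, Nat.log_mul_base (by norm_num) (by omega)]
  have h1 : k0 b L (2 * T) + T ≤ D * T * l := by
    have h2 := k0_le b L (2 * T)
    rw [hlog] at h2
    have h3 : (L + b) * (2 * T) * (l + 1) ≤ (L + b) * (2 * T) * (2 * l) :=
      Nat.mul_le_mul_left _ (by omega)
    have h4 : T ≤ T * l := Nat.le_mul_of_pos_right _ hl1
    calc k0 b L (2 * T) + T ≤ (L + b) * (2 * T) * (2 * l) + T * l := by omega
      _ = D * T * l := by rw [hD]; ring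
  have hTl : T < 2 ^ l := Nat.lt_pow_succ_log_self (by norm_num) T
  have hll : l ≤ T := by
    have := Nat.log_lt_self 2 (x := T) (by omega)
    omega
  have hD2 : D ≤ 2 ^ D := (Nat.lt_two_pow_self (n := D)).le
  have h5 : Nat.log 2 (k0 b L (2 * T) + T) + 1 ≤ (D + 2) * l := by
    have h6 : k0 b L (2 * T) + T < 2 ^ (D + 2 * l) := by
      calc k0 b L (2 * T) + T ≤ D * T * l := h1
        _ ≤ D * T * T := Nat.mul_le_mul_left _ hll
        _ = D * (T * T) := by ring
        _ < 2 ^ D * (2 ^ l * 2 ^ l) := by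
            have hTT : T * T < 2 ^ l * 2 ^ l := Nat.mul_lt_mul'' hTl hTl
            calc D * (T * T) ≤ 2 ^ D * (T * T) := Nat.mul_le_mul_right _ hD2
              _ < 2 ^ D * (2 ^ l * 2 ^ l) := Nat.mul_lt_mul_of_pos_left hTT (by positivity)
        _ = 2 ^ (D + 2 * l) := by rw [pow_add 2 D, two_mul, pow_add 2 l]
    have h7 : Nat.log 2 (k0 b L (2 * T) + T) < D + 2 * l :=
      Nat.log_lt_of_lt_pow (by omega) h6
    calc Nat.log 2 (k0 b L (2 * T) + T) + 1 ≤ D + 2 * l := h7
      _ ≤ D * l + 2 * l := by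
        have : D ≤ D * l := Nat.le_mul_of_pos_right _ hl1
        omega
      _ = (D + 2) * l := by ring
  unfold kk
  calc L * (Nat.log 2 (k0 b L (2 * T) + T) + 1) * (k0 b L (2 * T) + T)
      ≤ L * ((D + 2) * l) * (D * T * l) :=
        Nat.mul_le_mul (Nat.mul_le_mul_left _ h5) h1
    _ = (L * (D * (D + 2))) * T * l ^ 2 := by ring

theorem loglog_ge (N : ℕ) (hN : 16 ≤ N) : 2 ≤ Real.log N ∧ 1 ≤ Real.log (Real.log N) := by
  have hNR : (16 : ℝ) ≤ N := by exact_mod_cast hN
  have h16 : Real.log 16 = 4 * Real.log 2 := by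
    rw [show (16 : ℝ) = 2 ^ 4 by norm_num, Real.log_pow]; norm_num
  have h1 : Real.log 16 ≤ Real.log N := Real.log_le_log (by norm_num) hNR
  have h2 := Real.log_two_gt_d9
  have h3 : Real.exp 1 < 2.7182818286 := Real.exp_one_lt_d9
  have h4 : 2.77 ≤ Real.log N := by linarith
  refine ⟨by linarith, ?_⟩
  rw [Real.le_log_iff_exp_le (by linarith)]
  linarith

theorem result (b : ℕ) (hb : 2 ≤ b) :
    ∃ c C : ℝ, 0 < c ∧ 0 < C ∧ ∀ N : ℕ, 16 ≤ N → ∀ γ : ℝ, ∃ n ∈ restricted b, n ≤ N ∧
      |γ * n - round (γ * n)| ≤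
        C * Real.exp (-(c * Real.log N / (Real.log (Real.log N)) ^ 2)) := by
  obtain ⟨L, hL⟩ := exists_good b hb
  have hL1 := hL.1
  have hbR : (2 : ℝ) ≤ b := by exact_mod_cast hb
  have hlogb0 : 0 < Real.log b := Real.log_pos (by linarith)
  have hlogb : Real.log b ≤ b := by
    have := Real.log_le_sub_one_of_pos (x := (b : ℝ)) (by linarith)
    linarith
  set C2 : ℕ := L * ((4 * L + 4 * b + 1) * (4 * L + 4 * b + 3)) with hC2
  have hC21 : 1 ≤ C2 := Nat.one_le_iff_ne_zero.2 (by positivity)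
  have hC2R : (1 : ℝ) ≤ C2 := by exact_mod_cast hC21
  set c1 : ℝ := 1 / (9 * C2 * b) with hc1
  have hc1pos : 0 < c1 := by positivity
  have hc1le : c1 ≤ 1 := by
    rw [hc1, div_le_one (by positivity)]
    nlinarith
  refine ⟨c1 / 2, Real.exp (1 / 2), by positivity, by positivity, ?_⟩
  intro N hN γ
  obtain ⟨hX, hY⟩ := loglog_ge N hN
  set X := Real.log N with hXdef
  set Y := Real.log X with hYdef
  have hY2 : 1 ≤ Y ^ 2 := one_le_pow₀ hY
  set T := ⌊c1 * X / Y ^ 2⌋₊ with hT
  have hTle : (T : ℝ) ≤ c1 * X / Y ^ 2 := Nat.floor_le (by positivity)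
  have hTgt : c1 * X / Y ^ 2 < T + 1 := Nat.lt_floor_add_one _
  have hfin : 1 / (b : ℝ) ^ T ≤ Real.exp (1 / 2) * Real.exp (-(c1 / 2 * X / Y ^ 2)) := by
    rw [← Real.exp_add]
    have h1 : Real.exp (T / 2) ≤ (b : ℝ) ^ T := by
      have h2 : Real.exp (1 / 2) ≤ b := by
        have h3 := Real.log_two_gt_d9
        calc Real.exp (1 / 2) ≤ Real.exp (Real.log 2) := Real.exp_le_exp.2 (by linarith)
          _ = 2 := Real.exp_log (by norm_num)
          _ ≤ b := hbR
      calc Real.exp (T / 2) = Real.exp (T * (1 / 2)) := by ring_nf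
        _ = Real.exp (1 / 2) ^ T := Real.exp_nat_mul _ _
        _ ≤ (b : ℝ) ^ T := pow_le_pow_left₀ (Real.exp_pos _).le h2 T
    calc 1 / (b : ℝ) ^ T ≤ 1 / Real.exp (T / 2) :=
          one_div_le_one_div_of_le (Real.exp_pos _) h1
      _ = Real.exp (-(T / 2)) := by rw [Real.exp_neg, one_div]
      _ ≤ _ := by
        apply Real.exp_le_exp.2
        have : c1 / 2 * X / Y ^ 2 = (c1 * X / Y ^ 2) / 2 := by ring
        rw [this]
        linarith
  rcases Nat.eq_zero_or_pos T with h0 | hTpos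
  · refine ⟨1, ⟨{0}, Finset.singleton_nonempty 0, by simp⟩, by omega, ?_⟩
    rw [h0, pow_zero] at hfin
    have h1 := abs_sub_round (γ * ((1 : ℕ) : ℝ))
    linarith
  · obtain ⟨I, hI1, hI2, n, hn⟩ := realT b hb L hL γ T hTpos
    have hsz : (∑ i ∈ I, b ^ i) ≤ N := by
      have h1 := (sum_lt b _ hb I hI1).le
      have hTX : (T : ℝ) ≤ X := by
        calc (T : ℝ) ≤ c1 * X / Y ^ 2 := hTle
          _ ≤ c1 * X := div_le_self (by positivity) hY2
          _ ≤ 1 * X := by gcongr
          _ = X := one_mul X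
      have hTR : (1 : ℝ) ≤ T := by exact_mod_cast hTpos
      have hlT : (Nat.log 2 T : ℝ) + 1 ≤ 3 * Y := by
        have h2 := natlog_le_two T hTpos
        have h3 : Real.log T ≤ Y := Real.log_le_log (by linarith) hTX
        linarith
      have hkk : (kk b L T : ℝ) ≤ C2 * T * (Nat.log 2 T + 1) ^ 2 := by
        have := kk_le b L T hTpos
        exact_mod_cast this
      have h4 : (kk b L T : ℝ) * Real.log b ≤ X := by
        have h5 : (kk b L T : ℝ) ≤ X / b := by
          calc (kk b L T : ℝ) ≤ C2 * T * (Nat.log 2 T + 1) ^ 2 := hkk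
            _ ≤ C2 * (c1 * X / Y ^ 2) * (3 * Y) ^ 2 := by gcongr
            _ = X / b := by
                rw [hc1]
                have hY0 : Y ≠ 0 := by linarith
                field_simp
                ring
        calc (kk b L T : ℝ) * Real.log b ≤ (X / b) * b := by gcongr
          _ = X := by field_simp
      have h6 : ((b : ℝ)) ^ (kk b L T) ≤ N := by
        have hNpos : (0 : ℝ) < N := by
          have : 0 < N := by omega
          exact_mod_cast this
        rw [← Real.log_le_log_iff (by positivity) hNpos, Real.log_pow]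
        exact h4
      have h7 : b ^ (kk b L T) ≤ N := by exact_mod_cast h6
      exact h1.trans h7
    refine ⟨∑ i ∈ I, b ^ i, ⟨I, hI2, rfl⟩, hsz, ?_⟩
    refine le_trans ?_ hfin
    refine le_trans (round_le _ n) ?_
    refine le_trans (le_of_eq ?_) hn
    push_cast
    congr 1
    ring

end Pool.Agent.Results.MP_fcf9e8_nt.QuasiPowerSaving
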